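import Mathlib

set_option autoImplicit false

namespace Pool.Agent.H.MP_b93de1_al

open Subgroup
open scoped commutatorElement

theorem sol_step {G : Type} [Group G] (C D : Subgroup G) (h : ⁅C, C⁆ ≤ D) (hD : Group.IsSolvable D) :
    Group.IsSolvable C := by
  have h1 : Group.IsSolvable (D.subgroupOf C) := by
    refine Group.isSolvable_of_isSolvable_injective (G' := D)
      (f := (C.subtype.comp (D.subgroupOf C).subtype).codRestrict D (fun x => x.2)) ?_
    intro x y hxy
    have := congrArg Subtype.val hxy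
    exact Subtype.ext (Subtype.ext this)
  refine Group.isSolvable_of_ker_le_range (D.subgroupOf C).subtype
    (Abelianization.of : C →* Abelianization C) ?_
  rw [Abelianization.ker_of, subtype_range, commutator_def, commutator_le]
  intro x _ y _
  exact h (commutator_mem_commutator x.2 y.2)

theorem sol_chain {G : Type} [Group G] (n : ℕ) : ∀ (C : ℕ → Subgroup G),
    (∀ i, ⁅C i, C i⁆ ≤ C (i + 1)) → Group.IsSolvable (C n) → Group.IsSolvable (C 0) := by
  induction n with
  | zero => exact fun _ _ h => h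
  | succ n ih =>
    intro C h1 h2
    exact sol_step _ _ (h1 0) (ih (fun i => C (i + 1)) (fun i => h1 (i + 1)) h2)

theorem sol_le {G : Type} [Group G] {C D : Subgroup G} (h : C ≤ D) (hD : Group.IsSolvable D) :
    Group.IsSolvable C :=
  Group.isSolvable_of_isSolvable_injective (inclusion_injective h)

theorem fd_commute {F V : Type} [Field F] [AddCommGroup V] [Module F V] [FiniteDimensional F V]
    (a b : ℕ → Module.End F V) (h1 : ∀ i j, j < i → Commute (a i) (a j) ∧ Commute (a i) (b j)) :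
    ∃ i, Commute (a i) (b i) := by
  by_contra hne
  push Not at hne
  let C : ℕ → Submodule F (Module.End F V) := fun n =>
    { carrier := {T | ∀ j < n, Commute T (a j) ∧ Commute T (b j)}
      add_mem' := fun hx hy j hj => ⟨(hx j hj).1.add_left (hy j hj).1, (hx j hj).2.add_left (hy j hj).2⟩
      zero_mem' := fun j _ => ⟨Commute.zero_left _, Commute.zero_left _⟩
      smul_mem' := fun c x hx j hj => ⟨(hx j hj).1.smul_left c, (hx j hj).2.smul_left c⟩ }
  have hs : StrictAnti C := by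
    apply strictAnti_nat_of_succ_lt
    intro n
    refine lt_of_le_of_ne (fun T hT j hj => hT j (by omega)) ?_
    intro heq
    have : a n ∈ C n := fun j hj => h1 n j hj
    rw [← heq] at this
    exact hne n (this n (by omega)).2
  exact not_strictAnti_of_wellFoundedLT C hs

section
variable {A K : Type} [Group A] [Field K] (Φ : A →* (K ≃+* K))

/-- the permutation `g` is semi-affine with field part `u` -/
def rel (g : Equiv.Perm K) (u : A) : Prop := ∃ c d : K, c ≠ 0 ∧ ∀ y, g y = c * Φ u y + d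

theorem rel_one : rel Φ 1 1 := ⟨1, 0, one_ne_zero, fun y => by simp⟩

theorem rel_mul {g h : Equiv.Perm K} {u v : A} (h1 : rel Φ g u) (h2 : rel Φ h v) :
    rel Φ (g * h) (u * v) := by
  obtain ⟨c, d, hc, e1⟩ := h1
  obtain ⟨c', d', hc', e2⟩ := h2
  refine ⟨c * Φ u c', c * Φ u d' + d, mul_ne_zero hc (by simpa using hc'), fun y => ?_⟩
  rw [Equiv.Perm.mul_apply, e1, e2, map_mul Φ, RingAut.mul_apply]
  simp only [map_add, map_mul]
  ring

theorem rel_inv {g : Equiv.Perm K} {u : A} (h1 : rel Φ g u) : rel Φ g⁻¹ u⁻¹ := by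
  obtain ⟨c, d, hc, e1⟩ := h1
  refine ⟨Φ u⁻¹ c⁻¹, - Φ u⁻¹ (c⁻¹ * d), by simpa using hc, fun y => ?_⟩
  rw [Equiv.Perm.inv_eq_iff_eq, e1]
  have : ∀ t, Φ u (Φ u⁻¹ t) = t := by
    intro t
    rw [← RingAut.mul_apply, ← map_mul, mul_inv_cancel, map_one]; rfl
  rw [map_add, map_mul, map_neg, this, this, this]
  field_simp
  ring

/-- semi-affine group with field parts in `H` -/
def aff (H : Subgroup A) : Subgroup (Equiv.Perm K) where
  carrier := {g | ∃ u ∈ H, rel Φ g u}
  one_mem' := ⟨1, H.one_mem, rel_one Φ⟩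
  mul_mem' := fun ⟨u, hu, h1⟩ ⟨v, hv, h2⟩ => ⟨u * v, H.mul_mem hu hv, rel_mul Φ h1 h2⟩
  inv_mem' := fun ⟨u, hu, h1⟩ => ⟨u⁻¹, H.inv_mem hu, rel_inv Φ h1⟩

theorem aff_comm (H : Subgroup A) : ⁅aff Φ H, aff Φ H⁆ ≤ aff Φ ⁅H, H⁆ := by
  rw [commutator_le]
  rintro g ⟨u, hu, h1⟩ h ⟨v, hv, h2⟩
  exact ⟨⁅u, v⁆, commutator_mem_commutator hu hv,
    rel_mul Φ (rel_mul Φ (rel_mul Φ h1 h2) (rel_inv Φ h1)) (rel_inv Φ h2)⟩

theorem aff_mono {H H' : Subgroup A} (h : H ≤ H') : aff Φ H ≤ aff Φ H' :=
  fun _ ⟨u, hu, h1⟩ => ⟨u, h hu, h1⟩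

/-- translations -/
def tr (K : Type) [Field K] : Subgroup (Equiv.Perm K) where
  carrier := {g | ∃ d, ∀ y, g y = y + d}
  one_mem' := ⟨0, by simp⟩
  mul_mem' := fun ⟨d, h⟩ ⟨d', h'⟩ => ⟨d' + d, fun y => by
    rw [Equiv.Perm.mul_apply, h, h', add_assoc]⟩
  inv_mem' := fun ⟨d, h⟩ => ⟨-d, fun y => by
    rw [Equiv.Perm.inv_eq_iff_eq, h]; ring⟩

theorem sol_bot : Group.IsSolvable (aff Φ ⊥) := by
  refine sol_step _ (tr K) ?_ ?_
  · rw [commutator_le]
    rintro g ⟨u, hu, c, d, hc, h1⟩ h ⟨v, hv, c', d', hc', h2⟩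
    rw [mem_bot] at hu hv
    subst hu hv
    simp only [map_one, RingAut.one_apply] at h1 h2
    refine ⟨c * d' + d - c' * d - d', fun y => ?_⟩
    obtain ⟨t, rfl⟩ := (h * g).surjective y
    rw [← Equiv.Perm.mul_apply]
    have : ⁅g, h⁆ * (h * g) = g * h := by rw [commutatorElement_def]; group
    rw [this]
    simp only [Equiv.Perm.mul_apply, h1, h2]
    ring
  · apply Group.isSolvable_of_comm
    rintro ⟨g, d, h⟩ ⟨g', d', h'⟩
    apply Subtype.ext
    ext y
    show g (g' y) = g' (g y)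
    rw [h, h', h', h]
    ring

theorem sol_aff (H : Subgroup A) (hH : Group.IsSolvable H) : Group.IsSolvable (aff Φ H) := by
  obtain ⟨n, hn⟩ := hH
  have := sol_chain n (fun i => aff Φ ((derivedSeries H i).map H.subtype)) (by
    intro i
    refine (aff_comm Φ _).trans (aff_mono Φ ?_)
    rw [derivedSeries_succ, map_commutator]) (by
    refine sol_le (aff_mono Φ ?_) (sol_bot Φ)
    rw [hn, Subgroup.map_bot])
  refine sol_le (aff_mono Φ ?_) this
  rw [derivedSeries_zero, ← MonoidHom.range_eq_map, subtype_range]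

/-- field automorphisms inside the semi-affine group -/
def inA : A →* aff Φ ⊤ where
  toFun u := ⟨(Φ u).toEquiv, u, mem_top _, 1, 0, one_ne_zero, fun y => by simp⟩
  map_one' := by ext y; simp
  map_mul' u v := by ext y; simp [RingAut.mul_apply]

/-- affine maps inside the semi-affine group -/
noncomputable def lin (c d : K) (hc : c ≠ 0) : aff Φ ⊤ :=
  ⟨(Equiv.mulLeft₀ c hc).trans (Equiv.addRight d), 1, mem_top _, c, d, hc, fun y => by simp⟩

theorem lin_apply (c d : K) (hc : c ≠ 0) (y : K) : (lin Φ c d hc : Equiv.Perm K) y = c * y + d := by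
  simp [lin]

theorem inA_apply (u : A) (y : K) : (inA Φ u : Equiv.Perm K) y = Φ u y := rfl

theorem main [Infinite K] (hloc : ∀ S : Finset A, Group.IsSolvable (closure (S : Set A)))
    (hrep : ∀ (F V : Type) [Field F] [AddCommGroup V] [Module F V] [FiniteDimensional F V]
      (ρ : A →* Module.End F V) (u : A), ρ u = 1)
    (z : A) (hz : ∀ y, Φ z y = y ^ 2) :
    Infinite (aff Φ ⊤) ∧ MulAction.IsMultiplyPretransitive (aff Φ ⊤) K 2 ∧
    (∀ S : Finset (aff Φ ⊤), Group.IsSolvable (closure (S : Set (aff Φ ⊤)))) ∧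
    ∀ (F V : Type) [Field F] [AddCommGroup V] [Module F V] [FiniteDimensional F V]
      (ρ : aff Φ ⊤ →* Module.End F V) (g : aff Φ ⊤), ρ g = 1 := by
  classical
  refine ⟨?_, ?_, ?_, ?_⟩
  · refine Infinite.of_injective (fun d => lin Φ 1 d one_ne_zero) ?_
    intro d d' h
    have := congrArg (fun g : aff Φ ⊤ => (g : Equiv.Perm K) 0) h
    simpa [lin_apply] using this
  · rw [MulAction.is_two_pretransitive_iff]
    intro a b c d hab hcd
    have h1 : a - b ≠ 0 := sub_ne_zero.2 hab
    have h2 : c - d ≠ 0 := sub_ne_zero.2 hcd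
    refine ⟨lin Φ ((c - d) / (a - b)) (c - (c - d) / (a - b) * a) (div_ne_zero h2 h1), ?_, ?_⟩
    · show (lin Φ _ _ _ : Equiv.Perm K) a = c
      rw [lin_apply]; ring
    · show (lin Φ _ _ _ : Equiv.Perm K) b = d
      rw [lin_apply]; field_simp; ring
  · intro S
    have hch : ∀ g : aff Φ ⊤, ∃ u, rel Φ g u := fun g => let ⟨u, _, h⟩ := g.2; ⟨u, h⟩
    choose w hw using hch
    have h1 := sol_aff Φ _ (hloc (S.image w))
    have hle : closure (S : Set (aff Φ ⊤)) ≤
        (aff Φ (closure ((S.image w : Finset A) : Set A))).subgroupOf (aff Φ ⊤) := by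
      rw [closure_le]
      intro g hg
      exact ⟨w g, subset_closure (by simpa using ⟨g, g.2, hg, rfl⟩), hw g⟩
    refine sol_le hle ?_
    have hl : aff Φ (closure ((S.image w : Finset A) : Set A)) ≤ aff Φ ⊤ := aff_mono Φ le_top
    exact Group.isSolvable_of_isSolvable_injective
      (f := (subgroupOfEquivOfLe hl).toMonoidHom) (subgroupOfEquivOfLe hl).injective
  · intro F V _ _ _ _ ρ
    have hA : ∀ u, ρ (inA Φ u) = 1 := hrep F V (ρ.comp (inA Φ))
    have hker : ∀ g h : aff Φ ⊤, ρ g = ρ (g * h) → ρ h = 1 := by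
      intro g h e
      have := congrArg (fun T => ρ g⁻¹ * T) e
      simp only [← map_mul, inv_mul_cancel, inv_mul_cancel_left, map_one] at this
      exact this.symm
    have hm : ∀ c hc, ρ (lin Φ c 0 hc) = 1 := by
      intro c hc
      apply hker (lin Φ c 0 hc)
      have : inA Φ z * lin Φ c 0 hc = lin Φ c 0 hc * lin Φ c 0 hc * inA Φ z := by
        ext y
        simp only [MulMemClass.coe_mul, Equiv.Perm.mul_apply, lin_apply, inA_apply, hz]
        ring
      have h2 := congrArg ρ this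
      rw [map_mul, map_mul _ _ (inA Φ z), hA, one_mul, mul_one] at h2
      exact h2
    obtain ⟨a, ha⟩ := Infinite.exists_notMem_finset ({0, 1} : Finset K)
    simp only [Finset.mem_insert, Finset.mem_singleton, not_or] at ha
    have ha1 : a - 1 ≠ 0 := sub_ne_zero.2 ha.2
    have ht : ∀ d, ρ (lin Φ 1 d one_ne_zero) = 1 := by
      intro d
      apply hker (lin Φ 1 (d / (a - 1)) one_ne_zero)
      have : lin Φ a 0 ha.1 * lin Φ 1 (d / (a - 1)) one_ne_zero =
          lin Φ 1 (d / (a - 1)) one_ne_zero * lin Φ 1 d one_ne_zero * lin Φ a 0 ha.1 := by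
        ext y
        simp only [MulMemClass.coe_mul, Equiv.Perm.mul_apply, lin_apply]
        field_simp
        ring
      have h2 := congrArg ρ this
      rw [map_mul, map_mul _ _ (lin Φ a 0 ha.1), hm, one_mul, mul_one] at h2
      exact h2
    rintro ⟨g, u, hu, c, d, hc, h⟩
    have : (⟨g, u, hu, c, d, hc, h⟩ : aff Φ ⊤) =
        lin Φ 1 d one_ne_zero * lin Φ c 0 hc * inA Φ u := by
      ext y
      simp only [MulMemClass.coe_mul, Equiv.Perm.mul_apply, lin_apply, inA_apply, h]
      ring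
    rw [this, map_mul, map_mul, ht, hm, hA, one_mul, one_mul]

end

end Pool.Agent.H.MP_b93de1_al
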