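import Pool.Agent.H.MP_b93de1_al.Aff

set_option autoImplicit false

namespace Pool.Agent.H.MP_b93de1_al

open Subgroup
open scoped commutatorElement

/-- coordinates -/
abbrev W : Type := ℚ → ℤ
/-- endomorphism ring -/
abbrev R : Type := Module.End ℤ W

/-- matrix units -/
def e (a b : ℚ) : R := (LinearMap.single ℤ (fun _ => ℤ) a).comp (LinearMap.proj b)

theorem e_apply (a b : ℚ) (w : W) (c : ℚ) : e a b w c = if c = a then w b else 0 := by
  simp [e, Pi.single_apply]

theorem e_same (a b d : ℚ) : e a b * e b d = e a d := by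
  ext w c
  simp [e_apply]

theorem e_ne {b c : ℚ} (h : b ≠ c) (a d : ℚ) : e a b * e c d = 0 := by
  ext w t
  simp [e_apply, h]

/-- elementary transvections -/
def x (a b : ℚ) (h : a < b) : Rˣ :=
  ⟨1 + e a b, 1 - e a b, by simp [mul_sub, add_mul, e_ne h.ne'], by
    simp [mul_add, sub_mul, e_ne h.ne']⟩

theorem x_val (a b : ℚ) (h : a < b) : (x a b h : R) = 1 + e a b := rfl
theorem x_inv (a b : ℚ) (h : a < b) : ((x a b h)⁻¹ : Rˣ) = (1 - e a b : R) := rfl

theorem x_rel {a b c : ℚ} (h1 : a < c) (h2 : c < b) :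
    x a c h1 * x c b h2 = x a b (h1.trans h2) * (x c b h2 * x a c h1) := by
  apply Units.ext
  have h3 := h1.trans h2
  simp only [Units.val_mul, x_val, mul_add, add_mul, one_mul, mul_one, e_same,
    e_ne h3.ne', e_ne h2.ne', ← mul_assoc, zero_mul]
  abel

theorem x_comm {a b c d : ℚ} (h1 : a < b) (h2 : c < d) (h3 : b ≠ c) (h4 : d ≠ a) :
    x a b h1 * x c d h2 = x c d h2 * x a b h1 := by
  apply Units.ext
  simp only [Units.val_mul, x_val, mul_add, add_mul, one_mul, mul_one, e_ne h3, e_ne h4]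
  abel

/-- generators supported on `F` -/
def gen (F : Set ℚ) : Set Rˣ := {u | ∃ a b, ∃ h : a < b, a ∈ F ∧ b ∈ F ∧ u = x a b h}

/-- McLain group of the rational unit interval -/
def Mc : Subgroup Rˣ := closure (gen (Set.Icc 0 1))

theorem x_mem {a b : ℚ} (h : a < b) (h0 : 0 ≤ a) (h1 : b ≤ 1) : x a b h ∈ Mc :=
  subset_closure ⟨a, b, h, ⟨h0, by linarith⟩, ⟨by linarith, h1⟩, rfl⟩

theorem Mc_rep (F V : Type) [Field F] [AddCommGroup V] [Module F V] [FiniteDimensional F V]
    (ρ : Mc →* Module.End F V) (u : Mc) : ρ u = 1 := by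
  obtain ⟨u, hu⟩ := u
  induction hu using closure_induction with
  | mem u hu =>
    obtain ⟨a, b, h, ha, hb, rfl⟩ := hu
    let g : ℕ → ℚ := fun i => a + (b - a) / (i + 2)
    have hba : 0 < b - a := by linarith
    have g1 : ∀ i, a < g i := fun i => by
      have : 0 < (b - a) / ((i : ℚ) + 2) := by positivity
      simp only [g]; linarith
    have g2 : ∀ i, g i < b := fun i => by
      have : (b - a) / ((i : ℚ) + 2) < b - a := by
        apply div_lt_self hba
        have : (0 : ℚ) ≤ i := by positivity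
        linarith
      simp only [g]; linarith
    have g3 : ∀ i j, j < i → g i ≠ g j := by
      intro i j hij hg
      simp only [g, add_right_inj] at hg
      have h1 : (0 : ℚ) < i + 2 := by positivity
      have h2 : (0 : ℚ) < j + 2 := by positivity
      rw [div_eq_div_iff h1.ne' h2.ne'] at hg
      have := mul_left_cancel₀ hba.ne' hg
      have : (j : ℚ) = i := by linarith
      have : j = i := by exact_mod_cast this
      omega
    let p : ℕ → Mc := fun i => ⟨x a (g i) (g1 i), x_mem _ ha.1 (by linarith [g2 i, hb.2])⟩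
    let q : ℕ → Mc := fun i => ⟨x (g i) b (g2 i), x_mem _ (by linarith [g1 i, ha.1]) hb.2⟩
    obtain ⟨i, hi⟩ := fd_commute (fun i => ρ (p i)) (fun i => ρ (q i)) (by
      intro i j hij
      constructor
      · apply Commute.map
        exact Subtype.ext (x_comm (g1 i) (g1 j) (g1 i).ne' (g1 j).ne')
      · apply Commute.map
        exact Subtype.ext (x_comm (g1 i) (g2 j) (g3 i j hij) h.ne'))
    have h3 : p i * q i = ⟨x a b h, x_mem h ha.1 hb.2⟩ * (q i * p i) :=
      Subtype.ext (x_rel (g1 i) (g2 i))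
    have h4 : ρ (p i * q i) = ρ (q i * p i) := by
      rw [map_mul, map_mul]; exact hi.eq
    have h5 := congrArg (fun T => T * ρ (q i * p i)⁻¹) h4
    simp only [h3, ← map_mul, mul_inv_cancel, mul_inv_cancel_right, map_one] at h5
    exact h5
  | one => exact map_one ρ
  | mul u v hu hv h1 h2 =>
    have : (⟨u * v, mul_mem hu hv⟩ : Mc) = ⟨u, hu⟩ * ⟨v, hv⟩ := rfl
    rw [this, map_mul, h1, h2, one_mul]
  | inv u hu h1 =>
    have : (⟨u⁻¹, inv_mem hu⟩ : Mc) * ⟨u, hu⟩ = 1 := Subtype.ext (inv_mul_cancel u)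
    have h2 := congrArg ρ this
    rwa [map_mul, h1, mul_one, map_one] at h2

section flags
variable (F : Finset ℚ)

/-- rank in `F` -/
def rk (a : ℚ) : ℕ := (F.filter (· < a)).card

/-- flag attached to `F` -/
def fl (j : ℕ) (w : W) : Prop := (j = 0 → w = 0) ∧ ∀ a ∈ F, j ≤ rk F a + 1 → w a = 0

theorem fl_mono {j k : ℕ} (h : j ≤ k) {w : W} (hw : fl F j w) : fl F k w := by
  refine ⟨fun hk => hw.1 (by omega), fun a ha hk => hw.2 a ha (by omega)⟩

/-- endomorphisms lowering the flag by `k` -/
def T (k : ℕ) : AddSubgroup R where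
  carrier := {n | ∀ j w, fl F j w → fl F (j - k) (n w)}
  zero_mem' := fun _ _ _ => ⟨fun _ => rfl, fun _ _ _ => rfl⟩
  add_mem' := fun {m n} hm hn j w hw => ⟨fun h => by
      rw [LinearMap.add_apply, (hm j w hw).1 h, (hn j w hw).1 h, add_zero],
    fun a ha h => by
      rw [LinearMap.add_apply, Pi.add_apply, (hm j w hw).2 a ha h, (hn j w hw).2 a ha h, add_zero]⟩
  neg_mem' := fun {m} hm j w hw => ⟨fun h => by
      rw [LinearMap.neg_apply, (hm j w hw).1 h, neg_zero],
    fun a ha h => by
      rw [LinearMap.neg_apply, Pi.neg_apply, (hm j w hw).2 a ha h, neg_zero]⟩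

theorem T_mul {k l : ℕ} {m n : R} (hm : m ∈ T F k) (hn : n ∈ T F l) : m * n ∈ T F (k + l) := by
  intro j w hw
  have := hm _ _ (hn j w hw)
  rwa [Nat.sub_sub, add_comm l k] at this

theorem T_anti {k l : ℕ} (h : k ≤ l) {m : R} (hm : m ∈ T F l) : m ∈ T F k :=
  fun j w hw => fl_mono F (by omega) (hm j w hw)

theorem T_one : (1 : R) ∈ T F 0 := fun _ _ hw => hw

theorem T_top {m : R} (hm : m ∈ T F (F.card + 1)) : m = 0 := by
  ext1 w
  refine (hm (F.card + 1) w ⟨by omega, fun a ha h => ?_⟩).1 (by omega)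
  have : rk F a < F.card := by
    apply Finset.card_lt_card
    exact Finset.filter_ssubset.2 ⟨a, ha, lt_irrefl a⟩
  omega

theorem e_mem {a b : ℚ} (h : a < b) (ha : a ∈ F) (hb : b ∈ F) : e a b ∈ T F 1 := by
  have hr : rk F a < rk F b := by
    apply Finset.card_lt_card
    refine ⟨fun t ht => ?_, fun hs => ?_⟩
    · simp only [Finset.mem_filter] at ht ⊢
      exact ⟨ht.1, ht.2.trans h⟩
    · have := hs (Finset.mem_filter.2 ⟨ha, h⟩)
      simp at this
  intro j w hw
  refine ⟨fun hj => ?_, fun c hc hj => ?_⟩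
  · funext c
    rw [e_apply, hw.2 b hb (by omega)]
    simp
  · rw [e_apply]
    split_ifs with hca
    · subst hca
      exact hw.2 b hb (by omega)
    · rfl

/-- unipotent filtration -/
def U (k : ℕ) : Subgroup Rˣ where
  carrier := {u | (u : R) - 1 ∈ T F k ∧ ((u⁻¹ : Rˣ) : R) - 1 ∈ T F k}
  one_mem' := by simp [zero_mem]
  mul_mem' := by
    have key : ∀ u v : R, u - 1 ∈ T F k → v - 1 ∈ T F k → u * v - 1 ∈ T F k := by
      intro u v hu hv
      have : u * v - 1 = (u - 1) * (v - 1) + (u - 1) + (v - 1) := by noncomm_ring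
      rw [this]
      exact add_mem (add_mem (T_anti F (by omega) (T_mul F hu hv)) hu) hv
    intro u v hu hv
    refine ⟨key _ _ hu.1 hv.1, ?_⟩
    rw [mul_inv_rev]
    exact key _ _ hv.2 hu.2
  inv_mem' := fun hu => ⟨hu.2, by simpa using hu.1⟩

theorem U_comm (k : ℕ) : ⁅U F (k + 1), U F (k + 1)⁆ ≤ U F (k + 1 + 1) := by
  have key : ∀ u v : Rˣ, u ∈ U F (k + 1) → v ∈ U F (k + 1) →
      ((⁅u, v⁆ : Rˣ) : R) - 1 ∈ T F (k + 1 + 1) := by
    intro u v hu hv
    have h0 : ∀ t : R, t - 1 ∈ T F (k + 1) → t ∈ T F 0 := by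
      intro t ht
      have := add_mem (T_anti F (Nat.zero_le _) ht) (T_one F)
      simpa using this
    have : ((⁅u, v⁆ : Rˣ) : R) - 1 = (((u : R) - 1) * ((v : R) - 1) - ((v : R) - 1) * ((u : R) - 1))
        * ((u⁻¹ : Rˣ) : R) * ((v⁻¹ : Rˣ) : R) := by
      have e1 : ((u : R) - 1) * ((v : R) - 1) - ((v : R) - 1) * ((u : R) - 1) = u * v - v * u := by
        noncomm_ring
      rw [e1, commutatorElement_def]
      simp [sub_mul]
    rw [this]
    refine T_anti F (l := (k + 1 + (k + 1)) + 0 + 0) (by omega) ?_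
    exact T_mul F (T_mul F (sub_mem (T_mul F hu.1 hv.1) (T_mul F hv.1 hu.1)) (h0 _ hu.2))
      (h0 _ hv.2)
  rw [commutator_le]
  intro u hu v hv
  refine ⟨key u v hu hv, ?_⟩
  rw [commutatorElement_inv]
  exact key v u hv hu

theorem U_sol : Group.IsSolvable (U F 1) := by
  refine sol_chain F.card (fun i => U F (i + 1)) (U_comm F) ?_
  apply Group.isSolvable_of_comm
  intro u v
  have : ∀ t : U F (F.card + 1), t = 1 := by
    intro t
    apply Subtype.ext
    apply Units.ext
    exact sub_eq_zero.1 (T_top F t.2.1)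
  rw [this u, this v]

theorem gen_le : closure (gen (F : Set ℚ)) ≤ U F 1 := by
  rw [closure_le]
  rintro _ ⟨a, b, h, ha, hb, rfl⟩
  refine ⟨?_, ?_⟩
  · rw [x_val]; simpa using e_mem F h ha hb
  · rw [x_inv]; simpa using e_mem F h ha hb

end flags

theorem gen_mono {F F' : Set ℚ} (h : F ⊆ F') : closure (gen F) ≤ closure (gen F') :=
  closure_mono fun _ ⟨a, b, h1, ha, hb, h2⟩ => ⟨a, b, h1, h ha, h hb, h2⟩

theorem Mc_fin {u : Rˣ} (hu : u ∈ Mc) : ∃ F : Finset ℚ, u ∈ closure (gen (F : Set ℚ)) := by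
  induction hu using closure_induction with
  | mem u hu =>
    obtain ⟨a, b, h, _, _, rfl⟩ := hu
    exact ⟨{a, b}, subset_closure ⟨a, b, h, by simp, by simp, rfl⟩⟩
  | one => exact ⟨∅, one_mem _⟩
  | mul u v _ _ h1 h2 =>
    obtain ⟨F, h1⟩ := h1
    obtain ⟨F', h2⟩ := h2
    exact ⟨F ∪ F', mul_mem (gen_mono (by simp) h1) (gen_mono (by simp) h2)⟩
  | inv u _ h1 =>
    obtain ⟨F, h1⟩ := h1
    exact ⟨F, inv_mem h1⟩

theorem Mc_loc (S : Finset Mc) : Group.IsSolvable (closure (S : Set Mc)) := by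
  choose f hf using fun u : Mc => Mc_fin u.2
  have hle : closure (S : Set Mc) ≤ (U (S.biUnion f) 1).subgroupOf Mc := by
    rw [closure_le]
    intro u hu
    refine gen_le _ (gen_mono ?_ (hf u))
    exact_mod_cast Finset.subset_biUnion_of_mem f hu
  refine sol_le hle ?_
  have := U_sol (S.biUnion f)
  refine Group.isSolvable_of_isSolvable_injective (G' := U (S.biUnion f) 1)
    (f := (Mc.subtype.comp ((U (S.biUnion f) 1).subgroupOf Mc).subtype).codRestrict _
      (fun x => x.2)) ?_
  intro x y hxy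
  have := congrArg Subtype.val hxy
  exact Subtype.ext (Subtype.ext this)

/-- base vector -/
def v0 : W := Pi.single 0 1

theorem Mc_fix {u : Rˣ} (hu : u ∈ Mc) : (u : R) v0 = v0 ∧ ∀ w, (u : R) w 1 = w 1 := by
  induction hu using closure_induction with
  | mem u hu =>
    obtain ⟨a, b, h, ha, hb, rfl⟩ := hu
    have h1 : b ≠ 0 := by have := ha.1; linarith
    have h2 : (1 : ℚ) ≠ a := by have := hb.2; linarith
    refine ⟨?_, fun w => ?_⟩
    · funext c
      simp [x_val, e_apply, v0, h1]
    · simp [x_val, e_apply, h2]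
  | one => simp
  | mul u v _ _ h1 h2 =>
    refine ⟨?_, fun w => ?_⟩
    · rw [Units.val_mul, Module.End.mul_apply, h2.1, h1.1]
    · rw [Units.val_mul, Module.End.mul_apply, h1.2, h2.2]
  | inv u _ h1 =>
    refine ⟨?_, fun w => ?_⟩
    · conv_lhs => rw [← h1.1]
      rw [← Module.End.mul_apply, Units.inv_mul]; rfl
    · rw [← h1.2 (((u⁻¹ : Rˣ) : R) w), ← Module.End.mul_apply, Units.mul_inv]; rfl

/-- exponent group -/
def Gam : Submodule ℚ (W → ℚ) where
  carrier := {f | (∀ w, f w = 2 * f (w + v0)) ∧ ∀ w, w 1 ≠ 1 → f w = 0}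
  zero_mem' := by simp
  add_mem' := fun {f g} hf hg => ⟨fun w => by
      simp only [Pi.add_apply]; rw [hf.1 w, hg.1 w]; ring,
    fun w hw => by simp [hf.2 w hw, hg.2 w hw]⟩
  smul_mem' := fun c f hf => ⟨fun w => by
      simp only [Pi.smul_apply, smul_eq_mul]; rw [hf.1 w]; ring,
    fun w hw => by simp [hf.2 w hw]⟩

/-- action on the exponent group -/
def act (u : Mc) : Gam →+ Gam where
  toFun f := ⟨fun w => f.1 (((u⁻¹ : Mc) : Rˣ).1 w), fun w => by
      show _ = 2 * f.1 (((u⁻¹ : Mc) : Rˣ).1 (w + v0))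
      rw [map_add, (Mc_fix (u⁻¹).2).1]; exact f.2.1 _,
    fun w hw => f.2.2 _ (by rwa [(Mc_fix (u⁻¹).2).2])⟩
  map_zero' := rfl
  map_add' _ _ := rfl

theorem act_one (f : Gam) : act 1 f = f := by
  apply Subtype.ext
  funext w
  simp [act]

theorem act_mul (u v : Mc) (f : Gam) : act (u * v) f = act u (act v f) := by
  apply Subtype.ext
  funext w
  simp [act]

/-- action as an equivalence -/
def actE (u : Mc) : Gam ≃+ Gam :=
  { act u with
    invFun := act u⁻¹
    left_inv := fun f => by
      show act u⁻¹ (act u f) = f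
      rw [← act_mul, inv_mul_cancel, act_one]
    right_inv := fun f => by
      show act u (act u⁻¹ f) = f
      rw [← act_mul, mul_inv_cancel, act_one] }

theorem actE_apply (u : Mc) (f : Gam) : actE u f = act u f := rfl

/-- group algebra -/
abbrev D : Type := AddMonoidAlgebra (ZMod 2) Gam
/-- its field of fractions -/
abbrev K : Type := FractionRing D

/-- action on the group algebra -/
noncomputable def actD : Mc →* (D ≃+* D) where
  toFun u := AddMonoidAlgebra.mapDomainRingEquiv (ZMod 2) (actE u)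
  map_one' := by
    apply RingEquiv.toRingHom_injective
    apply AddMonoidAlgebra.ringHom_ext <;> simp [actE_apply, act_one]
  map_mul' u v := by
    apply RingEquiv.toRingHom_injective
    apply AddMonoidAlgebra.ringHom_ext <;> simp [actE_apply, act_mul, RingAut.mul_apply]

/-- action on the field -/
noncomputable def Phi : Mc →* (K ≃+* K) :=
  (IsFractionRing.ringEquivOfRingEquivHom D K).comp actD

/-- the central generator -/
def z : Mc := ⟨x 0 1 one_pos, x_mem _ le_rfl le_rfl⟩

theorem act_z (f : Gam) : act z f = f + f := by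
  apply Subtype.ext
  funext w
  show f.1 ((1 - e 0 1 : R) w) = f.1 w + f.1 w
  by_cases hw : w 1 = 1
  · rw [f.2.1 ((1 - e 0 1 : R) w)]
    have : (1 - e 0 1 : R) w + v0 = w := by
      funext c
      simp [e_apply, v0, hw, Pi.single_apply]
    rw [this]; ring
  · rw [f.2.2 w hw, f.2.2 _ (by simpa [e_apply] using hw), add_zero]

instance : CharP D 2 := charP_of_injective_algebraMap (algebraMap (ZMod 2) D).injective 2

instance : CharP K 2 := charP_of_injective_algebraMap (IsFractionRing.injective D K) 2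

theorem Phi_z (y : K) : Phi z y = y ^ 2 := by
  have h1 : (actD z).toRingHom = frobenius D 2 := by
    apply AddMonoidAlgebra.ringHom_ext
    · intro r
      have : r * r = r := by revert r; decide
      simp [actD, frobenius_def, pow_two, AddMonoidAlgebra.single_mul_single, this]
    · intro m
      simp [actD, frobenius_def, pow_two, AddMonoidAlgebra.single_mul_single, actE_apply, act_z]
  have h2 : (Phi z).toRingHom = frobenius K 2 := by
    apply IsLocalization.ringHom_ext (nonZeroDivisors D)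
    refine RingHom.ext fun a => ?_
    have := RingHom.congr_fun h1 a
    simp only [frobenius_def, RingEquiv.toRingHom_eq_coe, RingHom.coe_coe,
      RingHom.comp_apply] at this ⊢
    rw [← map_pow, ← this]
    exact IsFractionRing.ringEquivOfRingEquiv_algebraMap _ a
  exact RingHom.congr_fun h2 y

/-- a nonzero exponent -/
def f0 : Gam := ⟨fun w => if w 1 = 1 then (2 : ℚ) ^ (-w 0) else 0, fun w => by
    simp only [v0, Pi.add_apply, Pi.single_eq_same, ne_eq, one_ne_zero, not_false_eq_true,
      Pi.single_eq_of_ne, add_zero]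
    split_ifs
    · rw [neg_add, zpow_add₀ two_ne_zero]; simp; ring
    · simp,
  fun w hw => by simp [hw]⟩

instance : Infinite K := by
  refine Infinite.of_injective
    (fun q : ℚ => algebraMap D K (AddMonoidAlgebra.single (q • f0) 1)) ?_
  intro q q' h
  have h1 := IsFractionRing.injective D K h
  have h2 := AddMonoidAlgebra.single_left_injective (one_ne_zero) h1
  have h3 := congrArg (fun f : Gam => f.1 (Pi.single 1 1)) h2
  simpa [f0] using h3

end Pool.Agent.H.MP_b93de1_al
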